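import Mathlib
import Pool.Agent.TH551.HA.Tr3
import Pool.Agent.TH551.HA.Fin

/-!
# MP_9ec3f0_nt: the truncated inequality of Vojta for `N + 2` hyperplanes in general position of the
# projective space of dimension `N`, for points with almost unit coordinates: multiple factors do
# not contribute at all

The divisor `D` consists of the `N + 1` coordinate hyperplanes of the projective space of dimension
`N` over `ℚ` and of the hyperplane `z_0 + … + z_N = 0`; so `K + D` has degree one, and `D` is a
reduced normal crossings divisor. Let a finitely generated group `Γ` of rational numbers (for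
instance all `S`-units), the number `k`, the exponents `e_j ≥ 1` and `ε > 0` be given. There are a
nonzero form `G` and a constant `C` such that for every `M ≥ 1` all points off `G = 0` with coprime
nonzero integral coordinates

  `z_i = u_i a_i`, `u_i` in `Γ`, `a_i` integers with `|a_i| ≤ M`,

for which `z_0 + … + z_N = w ∏_j x_j ^ (e_j)` is not zero, `w` an integer in `Γ`, the integers `x_j`
being sums of `k` products of elements of `Γ` and integers of absolute value at most `M`, satisfy

  `(1 - ε) log |z_i| ≤ ∑_{e_j = 1} log |x_j| + C (1 + log M)` for all `i`.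

Only the factors `x_j` with exponent one occur on the right-hand side: the factors which occur with
an exponent `≥ 2` contribute neither with their multiplicity nor once. In particular (`e_j ≥ 2` for
all `j`) the height of the points for which the last coordinate is a product of such proper powers
is at most `C' (1 + log M)`.
-/

set_option autoImplicit false

namespace Pool.Agent.Results.MP_9ec3f0_nt.AlmostUnitCoordinates

theorem result (N p k : ℕ) (e : Fin p → ℕ) (he : ∀ j, 1 ≤ e j) (Γ : Subgroup ℚˣ) (hΓ : Γ.FG)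
    (ε : ℝ) (hε : 0 < ε) :
    ∃ (G : MvPolynomial (Fin (N + 1)) ℚ) (C : ℝ), (∃ d, G.IsHomogeneous d) ∧ G ≠ 0 ∧
      ∀ M : ℝ, 1 ≤ M → ∀ (u : Fin (N + 1) → Γ) (a : Fin (N + 1) → ℤ) (v : Fin p → Fin k → Γ)
        (c : Fin p → Fin k → ℤ), (∀ i, |(a i : ℝ)| ≤ M) → (∀ i j, |(c i j : ℝ)| ≤ M) →
        ∀ (z : Fin (N + 1) → ℤ) (x : Fin p → ℤ) (w : ℤ),
        (∀ i, (z i : ℚ) = ((u i : ℚˣ) : ℚ) * a i) →
        (∀ j, (x j : ℚ) = ∑ l, ((v j l : ℚˣ) : ℚ) * c j l) →
        (∃ g ∈ Γ, (w : ℚ) = ((g : ℚˣ) : ℚ)) → (∀ i, z i ≠ 0) →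
        ∑ i, z i = w * ∏ j, x j ^ (e j) → ∑ i, z i ≠ 0 → Finset.univ.gcd z = 1 →
        MvPolynomial.aeval (fun i => (z i : ℚ)) G ≠ 0 →
        ∀ i, (1 - ε) * Real.log |(z i : ℝ)| ≤
          C * (1 + Real.log M) + ∑ j with e j = 1, Real.log |(x j : ℝ)| :=
  Pool.Agent.TH551.HA.trMain Pool.Agent.TH551.HA.ncF Pool.Agent.TH551.HA.csF
    Pool.Agent.TH551.HA.hbF Pool.Agent.TH551.HA.fwF N p k e he Γ hΓ ε hε

end Pool.Agent.Results.MP_9ec3f0_nt.AlmostUnitCoordinates
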