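import Pool.Agent.Q245.Vj.Main

/-!
# The truncated inequality for a single divisor with a pair of conjugate points gives `abc`

`X = ℙ¹` over `ℚ`. A point `P = (x : y)` is given by coprime integers, with height
`H(P) = max (|x|, |y|)`. For a binary form `F` of degree `q` with integral coefficients and without
multiple factors, `D = {F = 0}` is a reduced divisor of degree `q`, `h_{K + D} = (q - 2) h`, and
`exp N¹(D, P)` is the product `rad F(x, y)` of the primes which divide `F(x, y)`. So
`Truncated q F` is Vojta's inequality with truncated counting function for `(ℙ¹, D)` over `ℚ`.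

It is known that the `abc` conjecture implies `Truncated q F` for all `F` (by Belyi maps), and
`abc` follows trivially from `Truncated q F` if `D` contains three rational points. We show that it
follows as soon as `D` contains a rational point and a pair of points which are conjugate over
`ℚ(√δ)`, where the discriminant `δ` of the pair has even `2`-adic valuation: after a substitution
in `SL₂(ℤ)`, the rational point is `y = 0` and the pair is `a x² + b x y + c y² = 0`, with
`δ = b² - 4 a c`. More generally it is enough that `D` contains `∞` and the `n` points `z` with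
`(p z + q)ⁿ = δ`, if `δ c` is an `n`-th power for some integer `c ≡ 1` modulo `n`.
-/

set_option autoImplicit false

namespace Pool.Agent.Results.MP_9ec3f0_nt.ConjugatePairSuffices

open Polynomial

/-- the product of the primes which divide `n` -/
def rad (n : ℤ) : ℕ := ∏ p ∈ n.natAbs.primeFactors, p

/-- the `abc` conjecture -/
def ABC : Prop :=
  ∀ ε : ℝ, 0 < ε → ∃ κ : ℝ, ∀ a b : ℤ, 0 < a → 0 < b → IsCoprime a b →
    ((a + b : ℤ) : ℝ) ≤ κ * (rad (a * b * (a + b)) : ℝ) ^ (1 + ε)

/-- Vojta's inequality with truncated counting function for the divisor `F = 0` of degree `q` on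
the projective line over `ℚ`: for each `ε > 0` there is `κ` with `H(P)^(q - 2 - ε) ≤ κ rad F(x, y)`
for all points `P = (x : y)` off the divisor -/
def Truncated (q : ℕ) (F : ℤ → ℤ → ℤ) : Prop :=
  ∀ ε : ℝ, 0 < ε → ∃ κ : ℝ, ∀ x y : ℤ, IsCoprime x y → F x y ≠ 0 →
    (max |(x : ℝ)| |(y : ℝ)|) ^ ((q : ℝ) - 2 - ε) ≤ κ * rad (F x y)

/-- the binary form `∑ g_i x^i y^(r - i)` of degree `r` -/
noncomputable def form (r : ℕ) (g : ℤ[X]) (x y : ℤ) : ℤ :=
  ∑ i ∈ Finset.range (r + 1), g.coeff i * x ^ i * y ^ (r - i)

/-- **One rational point and one pair of conjugate points.** Let `a ≠ 0` and let the `2`-adic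
valuation of `b² - 4 a c ≠ 0` be even. Then the `abc` conjecture is equivalent to the truncated
inequality for the divisor `y (a x² + b x y + c y²) = 0`, and it follows from the truncated
inequality for any one larger divisor. The same holds for `y G(x, y) = 0`, where `G` is a form of
degree `n ≥ 2` proportional to `(p x + q y)ⁿ - δ yⁿ`, if `δ c` is the `n`-th power of an integer for
some integer `c ≡ 1` modulo `n`. -/
theorem result :
    (∀ (a b c : ℤ) (j : ℕ) (m : ℤ), a ≠ 0 → Odd m → b ^ 2 - 4 * a * c = 4 ^ j * m →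
      (Truncated 3 (fun x y => y * (a * x ^ 2 + b * x * y + c * y ^ 2)) ↔ ABC) ∧
      ∀ (r : ℕ) (g : ℤ[X]), g ≠ 0 → g.natDegree ≤ r →
        Truncated (r + 3) (fun x y => y * (a * x ^ 2 + b * x * y + c * y ^ 2) * form r g x y) →
          ABC) ∧
    (∀ (n : ℕ) (G : ℤ → ℤ → ℤ) (e p q δ c μ : ℤ), 2 ≤ n → e ≠ 0 → p ≠ 0 → δ ≠ 0 →
      (∀ x y, e * G x y = (p * x + q * y) ^ n - δ * y ^ n) →
      c ≠ 0 → c ≡ 1 [ZMOD (n : ℤ)] → δ * c = μ ^ n →
      (Truncated (n + 1) (fun x y => y * G x y) ↔ ABC) ∧
      ∀ (r : ℕ) (g : ℤ[X]), g ≠ 0 → g.natDegree ≤ r →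
        Truncated (r + (n + 1)) (fun x y => y * G x y * form r g x y) → ABC) :=
  ⟨fun a b c j m ha hm hd => Pool.Agent.Q245.Vj.main_two a b c ha j m hm hd,
    fun n G e p q δ c μ hn he hp hδ hG hc0 hc hμ =>
      Pool.Agent.Q245.Vj.main n hn G e p q δ c μ he hp hδ hG hc0 hc hμ⟩

end Pool.Agent.Results.MP_9ec3f0_nt.ConjugatePairSuffices
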