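import Pool.Agent.Q38.HP.Main

/-!
# The exceptional points of hyperplanes in general position in the order by the truncated counting
# function

`K` is a number field, `S` a finite set of primes, `X = ℙ^n`, `D = H_1 + ... + H_r` the sum of
`r ≥ n + 1` hyperplanes over `K` in general position, so that `K_X + D` has degree `r - n - 1`. Q1
says `h(P) ≤ M N^(1)_S(D, P) + C` for every `M > 1 / (r - n - 1)`, off a proper closed subset. The
points `P` off `D` are ordered by `N^(1)_S(D, P)`, and for `1 / r < M < L`, `L ≤ 2 / (2 r - 1)` (or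
`(n + 1 / 2) L ≤ 1 - (r - n - 1) M`) those with `M N^(1) ≤ h < L N^(1)` (or `≤ L log X`) are counted:
there are `X ^ (1 - (r - n - 1) M + o(1))` of them with `N^(1) ≤ log X`.
-/

set_option autoImplicit false

namespace Pool.Agent.Results.MP_9ec3f0_nt.HyperplaneExceptionExponent

open NumberField IsDedekindDomain Filter Topology LinearAlgebra.Projectivization

variable {K : Type} [Field K] [NumberField K] {n r : ℕ}

/-- the value at `x` of the linear form with coefficients `a` -/
def form (a x : Fin (n + 1) → K) : K := ∑ j, a j * x j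

/-- the local height at the prime `v` of the point with coordinates `x` relative to the hyperplane
with coefficients `a` -/
noncomputable def localHeight (v : HeightOneSpectrum (𝓞 K)) (a x : Fin (n + 1) → K) : ℝ :=
  Real.log ((⨆ j, FinitePlace.mk v (a j)) * (⨆ j, FinitePlace.mk v (x j)) /
    FinitePlace.mk v (form a x))

/-- the truncated counting function `N^(1)_S(D, P)` of the sum `D` of the hyperplanes `a i`: the sum
of `log N(v)` over the primes `v` outside `S` where the local height of `D` is positive -/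
noncomputable def counting (S : Finset (HeightOneSpectrum (𝓞 K))) (a : Fin r → Fin (n + 1) → K)
    (x : Fin (n + 1) → K) : ℝ :=
  ∑ᶠ v ∈ {v : HeightOneSpectrum (𝓞 K) | v ∉ S ∧ 0 < ∑ i, localHeight v (a i) x},
    Real.log (Ideal.absNorm v.asIdeal : ℝ)

/-- the points `P` off `D` with `N^(1)_S(D, P) ≤ log X` and `M N^(1)_S(D, P) ≤ h(P) ≤ L log X`,
where `h` is the logarithmic height relative to `K` -/
def Exceptions (S : Finset (HeightOneSpectrum (𝓞 K))) (a : Fin r → Fin (n + 1) → K) (M L X : ℝ) :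
    Set (ℙ K (Fin (n + 1) → K)) :=
  {P | (∀ i, form (a i) P.rep ≠ 0) ∧ Real.exp (counting S a P.rep) ≤ X ∧
    M * counting S a P.rep ≤ Height.logHeight P.rep ∧ Height.logHeight P.rep ≤ L * Real.log X}

/-- the points `P` off `D` with `N^(1)_S(D, P) ≤ log X` and
`M N^(1)_S(D, P) ≤ h(P) < L N^(1)_S(D, P)` -/
def Between (S : Finset (HeightOneSpectrum (𝓞 K))) (a : Fin r → Fin (n + 1) → K) (M L X : ℝ) :
    Set (ℙ K (Fin (n + 1) → K)) :=
  {P | (∀ i, form (a i) P.rep ≠ 0) ∧ Real.exp (counting S a P.rep) ≤ X ∧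
    M * counting S a P.rep ≤ Height.logHeight P.rep ∧
    Height.logHeight P.rep < L * counting S a P.rep}

open Pool.Agent.Q38.HP Pool.Agent.Q38.AE.Cov

theorem counting_eq (S : Finset (HeightOneSpectrum (𝓞 K))) {a : Fin r → Fin (n + 1) → K}
    (ha0 : ∀ i, a i ≠ 0) {x : Fin (n + 1) → K} (hx : x ≠ 0) (hl : ∀ i, form (a i) x ≠ 0) :
    counting S a x = Pool.Agent.W232.VA.N1 S a x := by
  classical
  have h0 : ∀ v i, 0 ≤ localHeight v (a i) x := fun v i =>
    Pool.Agent.W232.VA.lam_fin_nonneg v (ha0 i) hx (hl i)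
  unfold counting Pool.Agent.W232.VA.N1
  refine finsum_congr fun v => ?_
  rw [finsum_eq_if]
  have h1 : v ∈ {v : HeightOneSpectrum (𝓞 K) | v ∉ S ∧ 0 < ∑ i, localHeight v (a i) x} ↔
      v ∉ S ∧ ∃ i, 0 < Pool.Agent.W232.VA.lam (Pool.Agent.H691R3.fv v) (a i) x := by
    rw [Set.mem_ofPred_eq]
    refine and_congr_right fun _ => ?_
    constructor
    · intro h
      by_contra hcon
      push Not at hcon
      have h2 : ∑ i, localHeight v (a i) x ≤ 0 := Finset.sum_nonpos fun i _ => hcon i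
      linarith
    · rintro ⟨i, hi⟩
      have h2 := Finset.single_le_sum (f := fun i => localHeight v (a i) x)
        (fun i _ => h0 v i) (Finset.mem_univ i)
      exact lt_of_lt_of_le hi h2
  by_cases h : v ∉ S ∧ ∃ i, 0 < Pool.Agent.W232.VA.lam (Pool.Agent.H691R3.fv v) (a i) x
  · rw [if_pos h, if_pos (h1.2 h)]
    rfl
  · rw [if_neg h, if_neg fun h' => h (h1.1 h')]

theorem eqE (S : Finset (HeightOneSpectrum (𝓞 K))) {a : Fin r → Fin (n + 1) → K}
    (ha0 : ∀ i, a i ≠ 0) (M L X : ℝ) :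
    Exceptions S a M L X = E (Off a) Hp (Np S a) M L X := by
  ext P
  constructor
  · rintro ⟨h1, h2⟩
    rw [counting_eq S ha0 P.rep_nonzero h1] at h2
    exact ⟨h1, h2⟩
  · rintro ⟨h1, h2⟩
    refine ⟨h1, ?_⟩
    rw [counting_eq S ha0 P.rep_nonzero h1]
    exact h2

theorem eqF (S : Finset (HeightOneSpectrum (𝓞 K))) {a : Fin r → Fin (n + 1) → K}
    (ha0 : ∀ i, a i ≠ 0) (M L X : ℝ) :
    Between S a M L X = F (Off a) Hp (Np S a) M L X := by
  ext P
  constructor
  · rintro ⟨h1, h2⟩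
    rw [counting_eq S ha0 P.rep_nonzero h1] at h2
    exact ⟨h1, h2⟩
  · rintro ⟨h1, h2⟩
    refine ⟨h1, ?_⟩
    rw [counting_eq S ha0 P.rep_nonzero h1]
    exact h2

/-- **The exceptional points of hyperplanes in general position.** Let `K` be a number field, `S` a
finite set of primes, `n ≥ 1`, and let `a 0, ..., a (r - 1)` be `r ≥ n + 1` hyperplanes of the
projective space of dimension `n`, any `n + 1` of them linearly independent. Let `1 / r < M < L`,
and suppose that (a) `L ≤ 2 / (2 r - 1)`, or (b) `(n + 1 / 2) L ≤ 1 - (r - n - 1) M`. Then both sets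
are finite for every `X ≥ 1`, and both have `X ^ (1 - (r - n - 1) M + o(1))` elements for
`X → ∞`. -/
theorem result (K : Type) [Field K] [NumberField K] (S : Finset (HeightOneSpectrum (𝓞 K)))
    (n r : ℕ) (hn : 1 ≤ n) (hr : n + 1 ≤ r) (a : Fin r → Fin (n + 1) → K)
    (ha : ∀ I : Finset (Fin r), I.card = n + 1 → LinearIndependent K (fun i : I => a i))
    (M L : ℝ) (hM : 1 / (r : ℝ) < M) (hML : M < L)
    (hL : L ≤ 2 / (2 * (r : ℝ) - 1) ∨ ((n : ℝ) + 1 / 2) * L ≤ 1 - ((r : ℝ) - n - 1) * M) :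
    (∀ X : ℝ, 1 ≤ X → (Exceptions S a M L X).Finite ∧
      Between S a M L X ⊆ Exceptions S a M L X) ∧
    Tendsto (fun X : ℝ => Real.log ((Exceptions S a M L X).ncard : ℝ) / Real.log X) atTop
      (𝓝 (1 - ((r : ℝ) - n - 1) * M)) ∧
    Tendsto (fun X : ℝ => Real.log ((Between S a M L X).ncard : ℝ) / Real.log X) atTop
      (𝓝 (1 - ((r : ℝ) - n - 1) * M)) := by
  have hr1 : (1 : ℝ) ≤ r := by
    have : 1 ≤ r := by omega
    exact_mod_cast this
  have hM0 : 0 < M := lt_trans (by positivity) hM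
  have hgp : GP a := ha
  have ha0 := hgp.ne_zero hr
  have hup : ∀ ε : ℝ, 0 < ε → ∃ C : ℝ, 0 < C ∧ ∀ X : ℝ, 1 ≤ X →
      (Exceptions S a M L X).Finite ∧ ((Exceptions S a M L X).ncard : ℝ) ≤
        C * X ^ (1 - ((r : ℝ) - n - 1) * M + ε) := by
    intro ε hε
    simp only [eqE S ha0]
    exact upper hgp hr hM hML hL hε
  have hlo : ∀ ε : ℝ, 0 < ε → ∃ X₀ : ℝ, ∀ X : ℝ, X₀ ≤ X →
      X ^ (1 - ((r : ℝ) - n - 1) * M - ε) ≤ ((Between S a M L X).ncard : ℝ) := by
    intro ε hε
    simp only [eqF S ha0]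
    exact lowerN hn hgp hr hM hML hL hε
  have hfin : ∀ X : ℝ, 1 ≤ X → (Exceptions S a M L X).Finite ∧
      Between S a M L X ⊆ Exceptions S a M L X := by
    intro X hX
    obtain ⟨C, -, hC⟩ := hup 1 one_pos
    refine ⟨(hC X hX).1, ?_⟩
    rw [eqE S ha0, eqF S ha0]
    exact F_sub (by linarith) (by linarith)
  have hle : ∀ X : ℝ, 1 ≤ X → ((Between S a M L X).ncard : ℝ) ≤
      ((Exceptions S a M L X).ncard : ℝ) := by
    intro X hX
    obtain ⟨h1, h2⟩ := hfin X hX
    exact_mod_cast Set.ncard_le_ncard h2 h1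
  refine ⟨hfin, tendsto_exponent (fun ε hε => ?_) (fun ε hε => ?_),
    tendsto_exponent (fun ε hε => ?_) hlo⟩
  · obtain ⟨C, hC, h⟩ := hup ε hε
    exact ⟨C, hC, fun X hX => (h X hX).2⟩
  · obtain ⟨X₀, h⟩ := hlo ε hε
    exact ⟨max X₀ 1, fun X hX => (h X ((le_max_left _ _).trans hX)).trans
      (hle X ((le_max_right _ _).trans hX))⟩
  · obtain ⟨C, hC, h⟩ := hup ε hε
    exact ⟨C, hC, fun X hX => (hle X hX).trans (h X hX).2⟩

end Pool.Agent.Results.MP_9ec3f0_nt.HyperplaneExceptionExponent
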