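import Pool.Agent.Q290.NF.Curve

/-!
# Vojta's truncated inequality for the rational points of all curves over a number field `K` follows
from the three point inequality on arbitrarily thin subsets of `ℙ¹(K)`

`ThinInequality K k`: the truncated inequality on the line over `K` with the divisor
`[0] + [1] + [-1]` (this is the abc inequality over `K`), only for the points `t = 1 / T(u)`, where
`u` is in `K` and `T` is the Chebyshev polynomial of degree `2 ^ k`. If `d` is the degree of `K`,
there are only `O(exp (5 d B / 2 ^ k))` such points of height at most `B` (relative to `K`).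

`CurveInequality K`: the inequality of the problem for the rational points of ALL smooth projective
curves `X` over `K`, all reduced divisors `D` on `X` and all `S`. The curve is given by a finite map
`t : X → ℙ¹` over `K` which is unramified outside the fibres over `0`, `1`, `-1` and for which `D` is
contained in these fibres (by Belyi's theorem there is such a map for all `X` and `D`). Let `N` be
the degree of `t` and `A` the ring of the functions on `X` with poles only over `∞`: a Dedekind
domain, finite over `K[t]`. If `F_j` is the ideal of the points over the `j`-th of the points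
`0`, `1`, `-1` which are not points of `D`, then
`deg (K_X + D) / N = 1 - (∑_j dim (A / F_j)) / N`.
The points `P` of `X` over `K` (not over `∞`) are the homomorphisms `A → K` over `K`.

The theorem: for every number field `K` and every `k` the two are equivalent. All heights are
relative to `K`, as in the problem.
-/

set_option autoImplicit false

namespace Pool.Agent.Results.MP_9ec3f0_nt.ThinSetsSuffice

open Polynomial IsDedekindDomain NumberField

variable {K : Type} [Field K] [NumberField K]

open Classical in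
/-- The truncated counting function of `[0] + [1] + [-1]` at the point `t` of the line: the sum of
`log N(v)` over the primes `v` of `K` at which `t` has the same reduction as one of these three
points. -/
noncomputable def counting (t : K) : ℝ :=
  ∑ᶠ v : HeightOneSpectrum (𝓞 K),
    if v.valuation K t < 1 ∨ v.valuation K (t - 1) < 1 ∨ v.valuation K (t + 1) < 1
    then Real.log (Ideal.absNorm v.asIdeal) else 0

/-- The points `t = 1 / T(u)`, where `u` is in `K` and `T` is the Chebyshev polynomial of degree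
`2 ^ k`. -/
def Thin (K : Type) [Field K] (k : ℕ) : Set K :=
  {t | ∃ u : K, t * (Chebyshev.T K ((2 : ℤ) ^ k)).eval u = 1}

/-- The truncated inequality for the divisor `[0] + [1] + [-1]` at the points of the thin set. -/
def ThinInequality (K : Type) [Field K] [NumberField K] (k : ℕ) : Prop :=
  ∀ ε : ℝ, 0 < ε → ∃ c : ℝ, ∀ t ∈ Thin K k, t ≠ 1 → t ≠ -1 →
    (1 - ε) * Height.logHeight₁ t - c ≤ counting t

/-- The points `0`, `1`, `-1` of the line. -/
def branch (K : Type) [Field K] : Fin 3 → K := ![0, 1, -1]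

/-- The function `t` on the curve with the ring of functions `A`. -/
noncomputable def coord (K A : Type) [Field K] [CommRing A] [Algebra K[X] A] : A :=
  algebraMap K[X] A X

/-- The rational point `P = φ` of the curve and the divisor `D` meet at the prime `v` of `K`: here
the part `D_j` of `D` over the `j`-th of the points `0`, `1`, `-1` has the equations
`y_{j 1} = ⋯ = y_{j u_j} = 0`, and `|t(P)|_v ≤ 1` and for some `j` one has `|t(P) - a_j|_v < 1`
and `|y_{j i}(P)|_v < 1` for all `i`. -/
def MeetsAt {A : Type} [CommRing A] [Algebra K A] [Algebra K[X] A] (u : Fin 3 → ℕ)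
    (y : ∀ j, Fin (u j) → A) (φ : A →ₐ[K] K) (v : HeightOneSpectrum (𝓞 K)) : Prop :=
  v.valuation K (φ (coord K A)) ≤ 1 ∧
    ∃ j, v.valuation K (φ (coord K A) - branch K j) < 1 ∧ ∀ i, v.valuation K (φ (y j i)) < 1

open Classical in
/-- The truncated counting function `N_S^{(1)}(D, P)`: the sum of `log N(v)` over the primes `v` of
`K`, not in `S`, at which `P` and `D` meet. -/
noncomputable def truncated {A : Type} [CommRing A] [Algebra K A] [Algebra K[X] A]
    (S : Finset (HeightOneSpectrum (𝓞 K))) (u : Fin 3 → ℕ) (y : ∀ j, Fin (u j) → A)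
    (φ : A →ₐ[K] K) : ℝ :=
  ∑ᶠ v : HeightOneSpectrum (𝓞 K),
    if v ∉ S ∧ MeetsAt u y φ v then Real.log (Ideal.absNorm v.asIdeal) else 0

/-- `1 - (∑_j dim (A / F_j)) / N`, where `N` is the rank of `A` over `K[t]`: the number
`deg (K_X + D) / N` for the curve `X`. -/
noncomputable def degree (K : Type) {A : Type} [Field K] [CommRing A] [Algebra K A]
    [Algebra K[X] A] (F : Fin 3 → Ideal A) : ℝ :=
  1 - (∑ j, (Module.finrank K (A ⧸ F j) : ℝ)) / Module.finrank K[X] A

/-- The truncated Vojta inequality for the rational points of all curves over `K` and all reduced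
divisors: for all Dedekind domains `A`, finite over `K[t]` and containing it, all closed subsets
`D_j`, given by `y_{j 1} = ⋯ = y_{j u_j} = 0`, and ideals `F_j ≠ 0` of `A` such that `D_j` and the
zeros of `F_j` together contain the fibre over the `j`-th of the points `0`, `1`, `-1`, all finite
sets `S` of primes and all `κ > 0` there is `c` such that all rational points `P = φ` with `t(P)`
different from `0`, `1`, `-1` satisfy
`N_S^{(1)}(D, P) ≥ (deg (K_X + D) / N - κ) h(t(P)) - c`. -/
def CurveInequality (K : Type) [Field K] [NumberField K] : Prop :=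
  ∀ (A : Type) [CommRing A] [IsDedekindDomain A] [Algebra K A] [Algebra K[X] A]
    [IsScalarTower K K[X] A] [Module.Finite K[X] A] [FaithfulSMul K[X] A]
    (u : Fin 3 → ℕ) (y : ∀ j, Fin (u j) → A) (F : Fin 3 → Ideal A), (∀ j, F j ≠ ⊥) →
    (∀ j i, ∀ e ∈ F j, y j i * e ∈
      (Ideal.span {coord K A - algebraMap K A (branch K j)}).radical) →
    ∀ (S : Finset (HeightOneSpectrum (𝓞 K))) (κ : ℝ), 0 < κ → ∃ c : ℝ,
      ∀ φ : A →ₐ[K] K, (∀ j, φ (coord K A) ≠ branch K j) →
        (degree K F - κ) * Height.logHeight₁ (φ (coord K A)) - c ≤ truncated S u y φ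

open Pool.Agent.Q290.NF

theorem sum_eq (P : HeightOneSpectrum (𝓞 K) → Prop)
    [∀ w, Decidable (P w)] : (∑ᶠ w : HeightOneSpectrum (𝓞 K),
      if P w then Real.log (Ideal.absNorm w.asIdeal : ℝ) else 0) = wt P := by
  unfold wt
  refine finsum_congr fun w => ?_
  by_cases h : P w
  · rw [if_pos h, ind_pos h]
    rfl
  · rw [if_neg h, ind_neg h]

theorem counting_eq (t : K) : counting t = wt (fun w => Near t w) := by
  unfold counting
  rw [sum_eq]
  rfl

theorem counting_eq' (t : K) :
    wt (fun w : HeightOneSpectrum (𝓞 K) => True ∧ Near t w) = wt (fun w => Near t w) := by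
  congr 1
  funext w
  rw [true_and]

theorem truncated_eq {A : Type} [CommRing A] [Algebra K A] [Algebra K[X] A]
    (S : Finset (HeightOneSpectrum (𝓞 K))) (u : Fin 3 → ℕ) (y : ∀ j, Fin (u j) → A)
    (φ : A →ₐ[K] K) : truncated S u y φ =
      wt (fun w => w ∉ S ∧ MeetD (branch K) u y φ w) := by
  unfold truncated
  rw [sum_eq]
  rfl

theorem near_iff (t : K) (w : HeightOneSpectrum (𝓞 K)) : Near t w ↔ NearA (branch K) t w := by
  constructor
  · rintro (h | h | h)
    · refine ⟨h.le, 0, ?_⟩
      show w.valuation K (t - 0) < 1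
      rw [sub_zero]
      exact h
    · refine ⟨?_, 1, h⟩
      have h1 : t = (t - 1) + 1 := by ring
      rw [h1]
      exact Valuation.map_add_le _ h.le (by rw [map_one])
    · refine ⟨?_, 2, ?_⟩
      · have h1 : t = (t + 1) - 1 := by ring
        rw [h1]
        exact Valuation.map_sub_le _ h.le (by rw [map_one])
      · show w.valuation K (t - (-1)) < 1
        rw [sub_neg_eq_add]
        exact h
  · rintro ⟨-, j, hj⟩
    fin_cases j
    · left
      have hj' : w.valuation K (t - 0) < 1 := hj
      rwa [sub_zero] at hj'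
    · right; left
      exact hj
    · right; right
      have hj' : w.valuation K (t - (-1)) < 1 := hj
      rwa [sub_neg_eq_add] at hj'

omit [NumberField K] in
theorem thin_eq {k : ℕ} {t : K} :
    t ∈ Thin K k ↔ t ≠ 0 ∧ ∃ u : K, t = (tv k u)⁻¹ := by
  constructor
  · rintro ⟨u, hu⟩
    exact ⟨left_ne_zero_of_mul_eq_one hu, u, eq_inv_of_mul_eq_one_left hu⟩
  · rintro ⟨h0, u, hu⟩
    refine ⟨u, ?_⟩
    have h1 : tv k u ≠ 0 := fun h => h0 (by rw [hu, h, inv_zero])
    rw [hu]
    exact inv_mul_cancel₀ h1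

theorem to_curve {k : ℕ} (h : ThinInequality K k) : CurveInequality K := by
  intro A _ _ _ _ _ _ _ u y F hF hy S κ hκ
  obtain ⟨c, hc⟩ := h (κ / 2 / 2 ^ k) (by positivity)
  obtain ⟨C, hC, hcrv⟩ := curve_key K A (by norm_num : 1 ≤ 3) (branch K) u y F hF hy S (κ / 2)
    (by positivity)
  obtain ⟨d, hd⟩ : ∃ d : ℝ, d = (Module.finrank ℚ K : ℝ) := ⟨_, rfl⟩
  have hd1 : 1 ≤ d := by
    rw [hd]
    exact_mod_cast Nat.succ_le_of_lt (Module.finrank_pos (R := ℚ) (M := K))
  refine ⟨d * (max c 0 + k * (3 * Real.log 2)) + d * C, ?_⟩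
  intro φ hφ
  obtain ⟨t, ht⟩ : ∃ t : K, t = φ (coord K A) := ⟨_, rfl⟩
  have h1 := hcrv K φ hφ
  have e0 : φ (algebraMap K[X] A X) = t := ht.symm
  rw [e0] at h1
  rw [← ht] at hφ ⊢
  have hgen : Gen t := ⟨hφ 0, hφ 1, hφ 2⟩
  have hthin : ∀ v : K, Gen (tv k v)⁻¹ → (1 - κ / 2 / 2 ^ k) * Height.logHeight₁ (tv k v)⁻¹ ≤
      wt (fun w => True ∧ Near (tv k v)⁻¹ w) + 0 + Module.finrank ℚ K * max c 0 := by
    intro v hv
    have h2 := hc (tv k v)⁻¹ (thin_eq.2 ⟨hv.1, v, rfl⟩) hv.2.1 hv.2.2
    rw [counting_eq] at h2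
    rw [counting_eq', ← hd]
    have h6 : c ≤ d * max c 0 := by
      have h7 : c ≤ max c 0 := le_max_left _ _
      have h8 : 0 ≤ max c 0 := le_max_right _ _
      nlinarith
    linarith
  have h2 := down (K := K) (fun _ => True) le_rfl k (le_max_right c 0)
    (by positivity : (0 : ℝ) ≤ κ / 2 / 2 ^ k) hthin t⁻¹ (by rw [inv_inv]; exact hgen)
  rw [inv_inv, counting_eq', ← hd] at h2
  have e3 : (2 : ℝ) ^ k * (κ / 2 / 2 ^ k) = κ / 2 := by
    have : (2 : ℝ) ^ k ≠ 0 := by positivity
    field_simp
  rw [e3] at h2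
  have e4 : wt (fun w : HeightOneSpectrum (𝓞 K) => Near t w) =
      wt (fun w => NearA (branch K) t w) := by
    congr 1
    funext w
    exact propext (near_iff t w)
  rw [e4] at h2
  rw [truncated_eq]
  unfold degree
  rw [← hd] at h1
  have hfin : {w : HeightOneSpectrum (𝓞 K) | w ∉ S ∧ MeetD (branch K) u y φ w}.Finite := by
    refine (nearA_fin (a := branch K) (t := t) hφ).subset ?_
    rintro w ⟨-, h3, j, h4, -⟩
    rw [e0] at h3 h4
    exact ⟨h3, j, h4⟩
  have h1 : wt (fun w => NearA (branch K) t w) ≤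
      wt (fun w => w ∉ S ∧ MeetD (branch K) u y φ w) +
        ((∑ j, (Module.finrank K (A ⧸ F j) : ℝ)) / Module.finrank K[X] A + κ / 2) *
          Height.logHeight₁ t + d * C := by
    refine h1.trans (add_le_add (add_le_add (wt_mono hfin fun w hw =>
      ⟨fun hS => hw.1 w hS ?_, hw.2⟩) le_rfl) le_rfl)
    ext x
    rfl
  obtain ⟨W, hW⟩ : ∃ W : ℝ, W = wt (fun w => w ∉ S ∧
      MeetD (branch K) u y φ w) := ⟨_, rfl⟩
  obtain ⟨H, hH⟩ : ∃ H : ℝ, H = Height.logHeight₁ t := ⟨_, rfl⟩
  obtain ⟨R, hR⟩ : ∃ R : ℝ, R = (∑ j, (Module.finrank K (A ⧸ F j) : ℝ)) /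
    Module.finrank K[X] A := ⟨_, rfl⟩
  rw [← hH, ← hR, ← hW] at h1
  rw [← hH] at h2
  rw [← hH, ← hW, ← hR]
  linarith

theorem of_curve {k : ℕ} (h : CurveInequality K) : ThinInequality K k := by
  intro ε hε
  obtain ⟨c, hc⟩ := h K[X] (fun _ => 1) (fun j _ => X - C (branch K j)) (fun _ => ⊤)
    (fun j => top_ne_bot) (by
      intro j i e _
      refine Ideal.le_radical (Ideal.mul_mem_right _ _ ?_)
      exact Ideal.subset_span rfl) ∅ ε hε
  refine ⟨c, ?_⟩
  intro t ht ht1 ht2
  have ht0 := (thin_eq.1 ht).1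
  have e1 : (aeval t : K[X] →ₐ[K] K) (coord K K[X]) = t := aeval_X t
  have h1 := hc (aeval t) (by
    intro j
    rw [e1]
    fin_cases j
    · exact ht0
    · exact ht1
    · exact ht2)
  rw [e1] at h1
  have e2 : degree K (fun _ : Fin 3 => (⊤ : Ideal K[X])) = 1 := by
    unfold degree
    have : Subsingleton (K[X] ⧸ (⊤ : Ideal K[X])) := Ideal.Quotient.subsingleton_iff.2 rfl
    simp [Module.finrank_zero_of_subsingleton]
  rw [e2] at h1
  have e3 : truncated (∅ : Finset (HeightOneSpectrum (𝓞 K))) (fun _ => 1)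
      (fun (j : Fin 3) (_ : Fin 1) => X - C (branch K j)) (aeval t : K[X] →ₐ[K] K) =
      counting t := by
    rw [truncated_eq, counting_eq]
    congr 1
    funext w
    rw [propext (near_iff t w)]
    unfold MeetD NearA
    have e4 : (aeval t : K[X] →ₐ[K] K) (algebraMap K[X] K[X] X) = t := aeval_X t
    rw [e4]
    refine propext ⟨?_, ?_⟩
    · rintro ⟨-, h2, j, h3, -⟩
      exact ⟨h2, j, h3⟩
    · rintro ⟨h2, j, h3⟩
      refine ⟨Finset.notMem_empty w, h2, j, h3, fun i => ?_⟩
      rw [map_sub, aeval_X, aeval_C]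
      exact h3
  rw [e3] at h1
  exact h1

/-- **Thin sets suffice.** Let `K` be a number field of degree `d` and `k` a natural number.
(1) There are at most `50 ^ (5 d) exp (5 d (B / 2 ^ k + 2 d log 2))` points in the thin set
`Thin K k` of height (relative to `K`) at most `B`, for all `B ≥ 0`.
(2) The truncated inequality for the divisor `[0] + [1] + [-1]` at the points of the thin set
`Thin K k` is equivalent to Vojta's truncated inequality for the rational points of all curves over
`K`, all reduced divisors and all `S`. -/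
theorem result (K : Type) [Field K] [NumberField K] (k : ℕ) :
    (∀ B : ℝ, 0 ≤ B → {t : K | t ∈ Thin K k ∧ Height.logHeight₁ t ≤ B}.Finite ∧
      ({t : K | t ∈ Thin K k ∧ Height.logHeight₁ t ≤ B}.ncard : ℝ) ≤
        50 ^ (5 * Module.finrank ℚ K) * Real.exp (5 * (Module.finrank ℚ K : ℝ) *
          (B / 2 ^ k + 2 * (Module.finrank ℚ K : ℝ) * Real.log 2))) ∧
    (ThinInequality K k ↔ CurveInequality K) := by
  refine ⟨fun B hB => ?_, to_curve, of_curve⟩
  have hfin : {t : K | Height.logHeight₁ t ≤ B}.Finite :=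
    NumberField.finite_setOfPred_logHeight₁_le K _
  refine ⟨hfin.subset fun t ht => ht.2, ?_⟩
  have h1 := sparse (K := K) k hB
  have h2 : {t : K | t ∈ Thin K k ∧ Height.logHeight₁ t ≤ B}.ncard ≤
      {t : K | (∃ u : K, t = (tv k u)⁻¹) ∧ Height.logHeight₁ t ≤ B}.ncard := by
    refine Set.ncard_le_ncard ?_ (hfin.subset fun t ht => ht.2)
    rintro t ⟨h3, h4⟩
    exact ⟨(thin_eq.1 h3).2, h4⟩
  have h3 : ({t : K | t ∈ Thin K k ∧ Height.logHeight₁ t ≤ B}.ncard : ℝ) ≤
      {t : K | (∃ u : K, t = (tv k u)⁻¹) ∧ Height.logHeight₁ t ≤ B}.ncard := by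
    exact_mod_cast h2
  refine h3.trans (h1.trans (le_of_eq ?_))
  congr 2
  ring

end Pool.Agent.Results.MP_9ec3f0_nt.ThinSetsSuffice
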